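import Mathlib
import Pool.Agent.H892.KT.Stm

/-!
# Linear maps are birational germs (statement `S_JLINBG`)
-/

set_option autoImplicit false

open Filter Topology Set
open scoped Manifold ContDiff

namespace Pool.Agent.H241.KT

open Pool.Agent.H892.KT

theorem ratAt_lin (A : (ℂ × ℂ) ≃L[ℂ] (ℂ × ℂ)) (p : ℂ × ℂ) : RatAt (fun y => A y) p := by
  have key : ∀ q : ℂ × ℂ, A q = q.1 • A (1, 0) + q.2 • A (0, 1) := by
    intro q
    rw [← map_smul, ← map_smul, ← map_add]
    congr 1
    ext <;> simp
  refine ⟨MvPolynomial.C (A (1, 0)).1 * MvPolynomial.X 0 +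
      MvPolynomial.C (A (0, 1)).1 * MvPolynomial.X 1, 1,
    MvPolynomial.C (A (1, 0)).2 * MvPolynomial.X 0 +
      MvPolynomial.C (A (0, 1)).2 * MvPolynomial.X 1, 1, one_ne_zero, one_ne_zero,
    Eventually.of_forall fun q => ?_⟩
  have h := key q
  constructor
  · have h1 := congrArg Prod.fst h
    simp only [Prod.fst_add, Prod.smul_fst, smul_eq_mul] at h1
    simp only [ev, map_one, one_mul, map_add, map_mul, MvPolynomial.eval_C, MvPolynomial.eval_X,
      Matrix.cons_val_zero, Matrix.cons_val_one]
    rw [h1]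
    ring
  · have h1 := congrArg Prod.snd h
    simp only [Prod.snd_add, Prod.smul_snd, smul_eq_mul] at h1
    simp only [ev, map_one, one_mul, map_add, map_mul, MvPolynomial.eval_C, MvPolynomial.eval_X,
      Matrix.cons_val_zero, Matrix.cons_val_one]
    rw [h1]
    ring

theorem t_JLINBG : S_JLINBG := by
  intro A
  refine ⟨A.toHomeomorph.toOpenPartialHomeomorph, ?_, fun y => rfl⟩
  refine ⟨mem_univ _, ?_, ?_, ?_, ?_, ?_⟩
  · show A 0 = 0
    exact map_zero A
  · exact A.differentiable.differentiableOn
  · exact A.symm.differentiable.differentiableOn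
  · intro p _
    exact ratAt_lin A p
  · intro p _
    exact ratAt_lin A.symm p

end Pool.Agent.H241.KT
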